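import Pool.Agent.AD.Main
import Pool.Agent.AD.Lab

/-!
Annuli in the wreath product of `F₂ × F₂` (base group, positions) and `ℤ` (lamp group): for every
thickness `r ≥ 3` the diameter of the annulus of the norms `n, …, n + r` is `O(n ^ 2 / log n)`,
hence `o(n ^ 2)`. For the norms `n, n + 1, n + 2` the annulus is never connected.
-/

set_option autoImplicit false

open Pool.Agent.AD in
/-- `GG = F₂ × F₂` with its eight generators `SG`, `LL = ℤ` (written multiplicatively) with
`SL = {1, -1}`, and the switch-or-walk generating set `Wreath.gens SG SL` of the wreath product. -/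
theorem Pool.Agent.Results.MP_072aa0_al.AnnulusDiameter.result :
    Infinite GG ∧ Infinite LL ∧ IsGenSet SG ∧ IsGenSet SL ∧ NoDeadEnds SL ∧
    (∀ n ≥ 1, annulusDiam (Wreath.gens SG SL) n 2 = ⊤) ∧
    ∀ r ≥ 3, ∃ C : ℝ, 0 < C ∧ ∃ n₀ : ℕ, ∀ n ≥ n₀, ∃ D : ℕ,
      annulusDiam (Wreath.gens SG SL) n r ≤ D ∧ (D : ℝ) ≤ C * (n : ℝ) ^ 2 / Real.log n :=
  main (lab naive pump pi)
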